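import Pool.Agent.Y247.SA.Main

open Filter Topology MeasureTheory Metric
open scoped ENNReal

namespace Pool.Agent.Results.MP_fdf3ca_an.GeneralSpaces

open Pool.Agent.Results.MP_fdf3ca_an.SpaceableHD Pool.Agent.Results.MP_fdf3ca_an.SpaceableBergman

/-- `f` is holomorphic on the disc. -/
def IsHol (f : Disc → ℂ) : Prop :=
  ∃ g : ℂ → ℂ, DifferentiableOn ℂ g (Metric.ball 0 1) ∧ ∀ z : Disc, f z = g z

/-- the `n`-th Taylor coefficient at the origin -/
noncomputable def taylor (n : ℕ) (f : Disc → ℂ) : ℂ := (n.factorial : ℂ)⁻¹ * iteratedDeriv n (ext f) 0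

/-- `J` embeds the topological vector space `X` in the space of holomorphic functions: it is linear and
injective, every `J x` is holomorphic, and every Taylor coefficient of `J x` depends continuously on `x`. -/
def Embeds {X : Type} [AddCommGroup X] [Module ℂ X] [TopologicalSpace X] (J : X →ₗ[ℂ] Disc → ℂ) : Prop :=
  Function.Injective J ∧ (∀ x, IsHol (J x)) ∧ ∀ n, Continuous fun x => taylor n (J x)

/-- `X` contains, for some weight `ω ≥ 1` on `[0,1)` with `ω(r) → ∞` as `r → 1`, all the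
holomorphic functions with `|f(z)| ≤ ω(|z|)`. -/
def HasGrowthClass {X : Type} [AddCommGroup X] [Module ℂ X] (J : X →ₗ[ℂ] Disc → ℂ) : Prop :=
  ∃ ω : ℝ → ℝ, (∀ r, 0 ≤ r → r < 1 → 1 ≤ ω r) ∧ Tendsto ω (𝓝[<] 1) atTop ∧
    ∀ f : Disc → ℂ, IsHol f → (∀ z : Disc, ‖f z‖ ≤ ω ‖(z:ℂ)‖) → ∃ x, J x = f

/-- `X` contains monomials `z^n` of arbitrarily large degree and arbitrarily small size. -/
def HasSmallMonomials {X : Type} [AddCommGroup X] [Module ℂ X] [MetricSpace X]
    (J : X →ₗ[ℂ] Disc → ℂ) : Prop :=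
  ∀ ε : ℝ, 0 < ε → ∀ n₀ : ℕ, ∃ n, n₀ ≤ n ∧ ∃ x : X, (∀ z : Disc, J x z = (z:ℂ) ^ n) ∧ dist x 0 < ε

/-- The strongly annular functions are spaceable in `X`: some closed infinite-dimensional subspace of `X`
has only strongly annular nonzero elements. -/
def Spaceable {X : Type} [AddCommGroup X] [Module ℂ X] [TopologicalSpace X]
    (J : X →ₗ[ℂ] Disc → ℂ) : Prop :=
  ∃ M : Submodule ℂ X, IsClosed (M : Set X) ∧ ¬ FiniteDimensional ℂ M ∧
    ∀ x ∈ M, x ≠ 0 → StronglyAnnular (J x)

/-- the holomorphic functions with `∫ |f|^p dμ < ∞` -/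
def InLp (p : ℝ) (μ : Measure Disc) (f : C(Disc, ℂ)) : Prop :=
  f ∈ HolD ∧ ∫⁻ z : Disc, ‖f z‖ₑ ^ p ∂μ < ⊤

/-- the lift to `H(𝔻)` -/
noncomputable def lift {X : Type} [AddCommGroup X] [Module ℂ X]
    (J : X →ₗ[ℂ] Disc → ℂ) (h : ∀ x, IsHol (J x)) : X →ₗ[ℂ] HolD where
  toFun x := ⟨⟨J x, by
    obtain ⟨g, hg, e⟩ := h x
    have e' : (J x) = fun z : Disc => g z := funext e
    rw [e']
    exact hg.continuousOn.comp_continuous continuous_subtype_val (fun z => z.2)⟩, h x⟩
  map_add' x y := by
    apply Subtype.ext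
    apply ContinuousMap.ext
    intro z
    change (J (x + y)) z = (J x) z + (J y) z
    rw [map_add]; rfl
  map_smul' c x := by
    apply Subtype.ext
    apply ContinuousMap.ext
    intro z
    change (J (c • x)) z = c • (J x) z
    rw [map_smul]; rfl

theorem lift_inj {X : Type} [AddCommGroup X] [Module ℂ X]
    (J : X →ₗ[ℂ] Disc → ℂ) (h : ∀ x, IsHol (J x)) (hJ : Function.Injective J) :
    Function.Injective (lift J h) := by
  intro x y hxy
  apply hJ
  have h5 : (lift J h x).1 = (lift J h y).1 := congrArg (fun x : HolD => x.1) hxy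
  funext z
  exact congrArg (fun f : C(Disc, ℂ) => f z) h5

theorem part1 (X : Type) [AddCommGroup X] [Module ℂ X] [TopologicalSpace X]
    (J : X →ₗ[ℂ] Disc → ℂ) (hJ : Embeds J) (h : HasGrowthClass J) : Spaceable J := by
  obtain ⟨h1, h2, h3⟩ := hJ
  obtain ⟨ω, h4, h5, h6⟩ := h
  exact Pool.Agent.Y247.SA.spaceable_of_growth (lift J h2) (lift_inj J h2 h1) h3 ω h4 h5
    (fun f hf => by
      obtain ⟨x, hx⟩ := h6 f.1 f.2 hf
      refine ⟨x, ?_⟩
      apply Subtype.ext
      apply ContinuousMap.ext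
      intro z
      exact congrFun hx z)

theorem part2 (X : Type) [AddCommGroup X] [Module ℂ X] [MetricSpace X] [CompleteSpace X]
    [ContinuousConstSMul ℂ X] (hinv : ∀ x y z : X, dist (x + z) (y + z) = dist x y)
    (J : X →ₗ[ℂ] Disc → ℂ) (hJ : Embeds J) (h : HasSmallMonomials J) : Spaceable J := by
  obtain ⟨h1, h2, h3⟩ := hJ
  exact Pool.Agent.Y247.SA.spaceable_of_monomials hinv (lift J h2) (lift_inj J h2 h1) h3 h

/-- **Strongly annular functions are spaceable in every reasonable space of holomorphic functions.**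
Let `X` be a complex vector space with a topology, embedded in the space of holomorphic functions on the
disc so that the Taylor coefficients are continuous on `X`.
* If `X` contains all the holomorphic functions with `|f(z)| ≤ ω(|z|)`, for some weight
`ω ≥ 1` tending to infinity at `1` (arbitrarily slowly), then the strongly annular functions are
spaceable in `X`.
* If `X` is a complete metric vector space with translation invariant metric which contains monomials
`z^n` of arbitrarily large degree and arbitrarily small size, then they are spaceable in `X`.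
In particular they are spaceable in `H(𝔻)` (**Q1**), in `B^p_α` for all `p > 0` and `α > -1` (**Q2**) and,
for every `p > 0` and every finite Borel measure `μ` on the disc, in the space of holomorphic functions in
`L^p(μ)`, with a subspace which is closed in it even for locally uniform convergence. -/
theorem result :
    (∀ (X : Type) [AddCommGroup X] [Module ℂ X] [TopologicalSpace X] (J : X →ₗ[ℂ] Disc → ℂ),
      Embeds J → HasGrowthClass J → Spaceable J) ∧
    (∀ (X : Type) [AddCommGroup X] [Module ℂ X] [MetricSpace X] [CompleteSpace X]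
      [ContinuousConstSMul ℂ X], (∀ x y z : X, dist (x + z) (y + z) = dist x y) →
      ∀ J : X →ₗ[ℂ] Disc → ℂ, Embeds J → HasSmallMonomials J → Spaceable J) ∧
    (∃ M : Submodule ℂ C(Disc, ℂ), M ≤ HolD ∧ IsClosed {f : HolD | (f : C(Disc, ℂ)) ∈ M} ∧
      ¬ FiniteDimensional ℂ M ∧ ∀ f ∈ M, f ≠ 0 → StronglyAnnular f) ∧
    (∀ (p α : ℝ) (hp : 0 < p), -1 < α → ∃ M : Submodule ℂ (Bergman p α hp),
      IsClosed (M : Set (Bergman p α hp)) ∧ ¬ FiniteDimensional ℂ M ∧
        ∀ f ∈ M, f ≠ 0 → StronglyAnnular f.toFun) ∧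
    (∀ p : ℝ, 0 < p → ∀ μ : Measure Disc, IsFiniteMeasure μ → ∃ M : Submodule ℂ C(Disc, ℂ),
      (∀ f ∈ M, InLp p μ f) ∧ IsClosed {f : {f : C(Disc, ℂ) // InLp p μ f} | (f : C(Disc, ℂ)) ∈ M} ∧
      ¬ FiniteDimensional ℂ M ∧ ∀ f ∈ M, f ≠ 0 → StronglyAnnular f) := by
  refine ⟨part1, part2, SpaceableHD.result, fun p α hp hα => ?_, fun p hp μ _ => ?_⟩
  · exact Pool.Agent.Y247.SA.spaceable_bergman p α hp hα
  · obtain ⟨M, h1, h2, h3⟩ := Pool.Agent.Y247.SA.spaceable_Lp p hp μ
    refine ⟨M.map (Pool.Agent.Y247.SA.LpSub p hp μ).subtype, ?_, ?_, ?_, ?_⟩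
    · rintro _ ⟨f, -, rfl⟩
      exact f.2
    · have e : {f : {f : C(Disc, ℂ) // InLp p μ f} | (f : C(Disc, ℂ)) ∈
          M.map (Pool.Agent.Y247.SA.LpSub p hp μ).subtype} = (M : Set (Pool.Agent.Y247.SA.LpSub p hp μ)) := by
        ext f
        constructor
        · rintro ⟨g, hg, hgf⟩
          have : g = f := Subtype.ext hgf
          rwa [← this]
        · intro hf
          exact ⟨f, hf, rfl⟩
      rw [e]
      exact h1
    · intro hfin
      apply h2
      have e := Submodule.equivMapOfInjective (Pool.Agent.Y247.SA.LpSub p hp μ).subtype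
        (Submodule.injective_subtype _) M
      exact Module.Finite.equiv e.symm
    · rintro _ ⟨f, hf, rfl⟩ hne
      exact h3 f hf (fun h => hne (by rw [h]; rfl))

end Pool.Agent.Results.MP_fdf3ca_an.GeneralSpaces
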